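import Mathlib

set_option autoImplicit false

namespace Pool.Agent.H.MP_5ac6d8_co

open Finset

/-- weighted Mantel-type inequality -/
lemma mantel {V : Type} [DecidableEq V] (e : V → V → ℝ) (hsymm : ∀ i j, e i j = e j i)
    (hdiag : ∀ i, e i i = 0) (h0 : ∀ i j, 0 ≤ e i j) (h1 : ∀ i j, e i j ≤ 1)
    (htri : ∀ i j k, e i j + e j k + e i k ≤ 2) :
    ∀ (N : ℕ) (S : Finset V), S.card = N → ∑ i ∈ S, ∑ j ∈ S, (e i j) ^ 2 ≤ (N : ℝ) ^ 2 / 2 := by
  intro N
  induction N using Nat.strong_induction_on with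
  | _ N ih =>
    intro S hS
    rcases S.eq_empty_or_nonempty with rfl | hne
    · simp; positivity
    obtain ⟨⟨u, v⟩, huv, hmax⟩ := Finset.exists_max_image (S ×ˢ S) (fun q => e q.1 q.2)
      (hne.product hne)
    rw [Finset.mem_product] at huv
    obtain ⟨hu, hv⟩ := huv
    simp only at hu hv hmax
    by_cases hne' : u = v
    · subst hne'
      have hz : ∀ i ∈ S, ∀ j ∈ S, e i j = 0 := by
        intro i hi j hj
        have := hmax (i, j) (Finset.mem_product.2 ⟨hi, hj⟩)
        simp only [hdiag] at this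
        exact le_antisymm this (h0 i j)
      have : ∑ i ∈ S, ∑ j ∈ S, (e i j) ^ 2 = 0 := by
        apply Finset.sum_eq_zero; intro i hi
        apply Finset.sum_eq_zero; intro j hj
        rw [hz i hi j hj]; simp
      rw [this]; positivity
    set T := (S.erase u).erase v with hT
    have hvu : v ∈ S.erase u := Finset.mem_erase.2 ⟨fun h => hne' h.symm, hv⟩
    have hvT : v ∉ T := by simp [hT]
    have huT : u ∉ insert v T := by
      simp only [hT, Finset.mem_insert, Finset.mem_erase]
      tauto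
    have hST : S = insert u (insert v T) := by
      rw [hT, Finset.insert_erase hvu, Finset.insert_erase hu]
    have hcard : T.card + 2 = N := by
      rw [← hS, hST, Finset.card_insert_of_notMem huT, Finset.card_insert_of_notMem hvT]
    have hih := ih T.card (by omega) T rfl
    have hpair : ∀ k ∈ T, (e u k) ^ 2 + (e v k) ^ 2 ≤ 1 := by
      intro k hk
      have hkS : k ∈ S := Finset.mem_of_mem_erase (Finset.mem_of_mem_erase hk)
      have a1 := hmax (u, k) (Finset.mem_product.2 ⟨hu, hkS⟩)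
      have a2 := hmax (v, k) (Finset.mem_product.2 ⟨hv, hkS⟩)
      have a3 := htri u v k
      simp only at a1 a2
      have b1 := h0 u k
      have b2 := h0 v k
      have b3 := h1 u v
      rcases le_total (e u k) (e v k) with h | h
      · rcases le_total (e v k) (2/3) with h' | h'
        · nlinarith
        · have : e u k ≤ 2 - 2 * e v k := by linarith
          nlinarith
      · rcases le_total (e u k) (2/3) with h' | h'
        · nlinarith
        · have : e v k ≤ 2 - 2 * e u k := by linarith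
          nlinarith
    have hsum : ∑ k ∈ T, ((e u k) ^ 2 + (e v k) ^ 2) ≤ T.card := by
      calc _ ≤ ∑ k ∈ T, (1:ℝ) := Finset.sum_le_sum hpair
        _ = T.card := by simp
    rw [hST]
    simp only [Finset.sum_insert huT, Finset.sum_insert hvT, hdiag, Finset.sum_add_distrib]
    rw [Finset.sum_add_distrib] at hsum
    have s1 : ∑ x ∈ T, e x u ^ 2 = ∑ x ∈ T, e u x ^ 2 :=
      Finset.sum_congr rfl (fun x _ => by rw [hsymm])
    have s2 : ∑ x ∈ T, e x v ^ 2 = ∑ x ∈ T, e v x ^ 2 :=
      Finset.sum_congr rfl (fun x _ => by rw [hsymm])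
    rw [s1, s2, hsymm v u, ← hcard]
    have c1 : e u v ^ 2 ≤ 1 := by
      have := h0 u v; have := h1 u v; nlinarith
    push_cast
    nlinarith

/-- coordinates indexed by unordered pairs -/
lemma coords (n : ℕ) (hn : 2 ≤ n) : ∃ (d : ℕ) (u : Fin n → Fin n → EuclideanSpace ℝ (Fin d)),
    1 ≤ d ∧ (∀ i, u i i = 0) ∧ (∀ i j, u i j = u j i) ∧
    (∀ x, ∑ i, ∑ j, (@inner ℝ _ _ (u i j) x) ^ 2 = 2 * ‖x‖ ^ 2) ∧
    (∀ f : Fin n → Fin n → ℝ, (∀ i, f i i = 0) → (∀ i j, f i j = f j i) →
      ∃ x, ∀ i j, @inner ℝ _ _ (u i j) x = f i j) := by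
  classical
  let E := {q : Fin n × Fin n // q.1 < q.2}
  let eqv : E ≃ Fin (Fintype.card E) := Fintype.equivFin E
  let u : Fin n → Fin n → EuclideanSpace ℝ (Fin (Fintype.card E)) := fun i j =>
    if h : i < j then EuclideanSpace.single (eqv ⟨(i, j), h⟩) 1
    else if h' : j < i then EuclideanSpace.single (eqv ⟨(j, i), h'⟩) 1 else 0
  have hlt : ∀ i j (h : i < j) x, @inner ℝ _ _ (u i j) x = x (eqv ⟨(i, j), h⟩) := by
    intro i j h x
    simp [u, h, EuclideanSpace.inner_single_left]
  have hsym : ∀ i j, u i j = u j i := by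
    intro i j
    rcases lt_trichotomy i j with h | h | h
    · simp [u, h, not_lt.2 h.le]
    · rw [h]
    · simp [u, h, not_lt.2 h.le]
  have hd : ∀ i, u i i = 0 := by intro i; simp [u]
  refine ⟨Fintype.card E, u, ?_, hd, hsym, ?_, ?_⟩
  · have : Nonempty E := ⟨⟨(⟨0, by omega⟩, ⟨1, by omega⟩), by simp [Fin.lt_def]⟩⟩
    exact Fintype.card_pos
  · intro x
    have h1 : ‖x‖ ^ 2 = ∑ q : E, (@inner ℝ _ _ (u q.1.1 q.1.2) x) ^ 2 := by
      rw [EuclideanSpace.real_norm_sq_eq, ← Equiv.sum_comp eqv]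
      apply Finset.sum_congr rfl
      intro q _
      rw [hlt _ _ q.2]
    have h2 : ∑ q : E, (@inner ℝ _ _ (u q.1.1 q.1.2) x) ^ 2
        = ∑ i, ∑ j, if i < j then (@inner ℝ _ _ (u i j) x) ^ 2 else 0 := by
      rw [← Fintype.sum_prod_type', ← Finset.sum_filter]
      symm
      apply Finset.sum_subtype
      intro q; simp
    have h3 : (∑ i, ∑ j, if j < i then (@inner ℝ _ _ (u i j) x) ^ 2 else 0)
        = ∑ i, ∑ j, if i < j then (@inner ℝ _ _ (u i j) x) ^ 2 else 0 := by
      rw [Finset.sum_comm]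
      apply Finset.sum_congr rfl; intro i _
      apply Finset.sum_congr rfl; intro j _
      rw [hsym]
    rw [h1, h2, two_mul]
    nth_rewrite 1 [← h3]
    rw [← Finset.sum_add_distrib]
    apply Finset.sum_congr rfl; intro i _
    rw [← Finset.sum_add_distrib]
    apply Finset.sum_congr rfl; intro j _
    rcases lt_trichotomy i j with h | h | h
    · simp [h, not_lt.2 h.le]
    · subst h; simp [hd]
    · simp [h, not_lt.2 h.le]
  · intro f hf0 hfs
    refine ⟨WithLp.toLp 2 (fun r => f (eqv.symm r).1.1 (eqv.symm r).1.2), ?_⟩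
    intro i j
    rcases lt_trichotomy i j with h | h | h
    · rw [hlt _ _ h]; simp
    · subst h; simp [hd, hf0]
    · rw [hsym, hlt _ _ h, hfs]; simp

end Pool.Agent.H.MP_5ac6d8_co
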