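import Mathlib

set_option autoImplicit false

namespace Pool.Agent.H.MP_5ac6d8_co

open Finset

section FW
variable {V : Type} [Fintype V] [DecidableEq V] (K : Type) [Field K]

/-- sign of a point with respect to a set -/
def sg (A : Finset V) (i : V) : K := if i ∈ A then -1 else 1

/-- multilinear monomial -/
def mono (S : Finset V) : Finset V → K := fun B => ∏ i ∈ S, sg K B i

/-- span of monomials of small degree -/
def W (V : Type) [Fintype V] [DecidableEq V] (k : ℕ) : Submodule K (Finset V → K) :=
  Submodule.span K (Set.range (fun S : {S : Finset V // S.card ≤ k} => mono K S.1))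

omit [Fintype V] in
lemma sg_sq (A : Finset V) (i : V) : sg K A i * sg K A i = 1 := by
  unfold sg; split_ifs <;> simp

lemma mono_mem (k : ℕ) (S : Finset V) (h : S.card ≤ k) : mono K S ∈ W K V k :=
  Submodule.subset_span ⟨⟨S, h⟩, rfl⟩

lemma W_mono {k l : ℕ} (h : k ≤ l) : W K V k ≤ W K V l := by
  apply Submodule.span_le.2
  rintro _ ⟨S, rfl⟩
  exact mono_mem K l S.1 (S.2.trans h)

lemma mul_mem (k : ℕ) (i : V) (g : Finset V → K) (hg : g ∈ W K V k) :
    (fun B => sg K B i * g B) ∈ W K V (k + 1) := by
  induction hg using Submodule.span_induction with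
  | mem x hx =>
    obtain ⟨S, rfl⟩ := hx
    by_cases hi : i ∈ S.1
    · have : (fun B => sg K B i * mono K S.1 B) = mono K (S.1.erase i) := by
        funext B
        unfold mono
        rw [← Finset.mul_prod_erase _ _ hi, ← mul_assoc, sg_sq, one_mul]
      rw [this]
      apply mono_mem
      have := S.2
      have := Finset.card_erase_le (s := S.1) (a := i)
      omega
    · have : (fun B => sg K B i * mono K S.1 B) = mono K (insert i S.1) := by
        funext B
        unfold mono
        rw [Finset.prod_insert hi]
      rw [this]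
      apply mono_mem
      have := S.2
      rw [Finset.card_insert_of_notMem hi]
      omega
  | zero =>
    have : (fun B => sg K B i * (0 : Finset V → K) B) = 0 := by funext B; simp
    rw [this]; exact Submodule.zero_mem _
  | add x y _ _ hx hy =>
    have : (fun B => sg K B i * (x + y) B)
      = (fun B => sg K B i * x B) + (fun B => sg K B i * y B) := by
      funext B; simp [mul_add]
    rw [this]; exact Submodule.add_mem _ hx hy
  | smul a x _ hx =>
    have : (fun B => sg K B i * (a • x) B) = a • (fun B => sg K B i * x B) := by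
      funext B; simp; ring
    rw [this]; exact Submodule.smul_mem _ _ hx

/-- the inner product of sign vectors -/
def ip (A B : Finset V) : K := ∑ i, sg K A i * sg K B i

lemma pow_mem (A : Finset V) (k : ℕ) : (fun B => (ip K A B) ^ k) ∈ W K V k := by
  induction k with
  | zero =>
    have : (fun B => (ip K A B) ^ 0) = mono K (∅ : Finset V) := by funext B; simp [mono]
    rw [this]; exact mono_mem K 0 ∅ (by simp)
  | succ k ih =>
    have : (fun B => (ip K A B) ^ (k + 1))
        = ∑ i, sg K A i • (fun B => sg K B i * (ip K A B) ^ k) := by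
      funext B
      rw [pow_succ', Finset.sum_apply]
      conv_lhs => rw [ip, Finset.sum_mul]
      apply Finset.sum_congr rfl
      intro i _
      simp [ip, mul_assoc]
    rw [this]
    exact Submodule.sum_mem _ (fun i _ => Submodule.smul_mem _ _ (mul_mem K k i _ ih))

lemma ip_eq (A B : Finset V) :
    ip K A B = (Fintype.card V : K) - 2 * ((symmDiff A B).card : K) := by
  have h : ∀ i, sg K A i * sg K B i = 1 - 2 * (if i ∈ symmDiff A B then 1 else 0) := by
    intro i
    unfold sg
    by_cases ha : i ∈ A <;> by_cases hb : i ∈ B <;> simp [Finset.mem_symmDiff, ha, hb] <;> norm_num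
  unfold ip
  simp only [h, Finset.sum_sub_distrib, ← Finset.mul_sum]
  simp

lemma card_small (k : ℕ) :
    Fintype.card {S : Finset V // S.card ≤ k} * 3 ^ (Fintype.card V - k) ≤ 4 ^ Fintype.card V := by
  have h := Finset.sum_pow_mul_eq_add_pow (1 : ℕ) 3 (Finset.univ : Finset V)
  simp only [one_pow, one_mul, Finset.card_univ, Finset.powerset_univ] at h
  rw [show (4:ℕ) = 1 + 3 by rfl, ← h, Fintype.card_subtype]
  calc _ = ∑ S ∈ Finset.univ.filter (fun S : Finset V => S.card ≤ k),
        3 ^ (Fintype.card V - k) := by simp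
    _ ≤ ∑ S ∈ Finset.univ.filter (fun S : Finset V => S.card ≤ k),
        3 ^ (Fintype.card V - S.card) := by
        apply Finset.sum_le_sum
        intro S hS
        apply Nat.pow_le_pow_right (by norm_num)
        have := (Finset.mem_filter.1 hS).2
        omega
    _ ≤ _ := Finset.sum_le_sum_of_subset (Finset.filter_subset _ _)

end FW

/-- Frankl-Wilson type bound -/
lemma fw {V : Type} [Fintype V] [DecidableEq V] (p : ℕ) [hp : Fact p.Prime] (hp2 : p ≠ 2)
    (hV : p ∣ Fintype.card V) (F : Finset (Finset V))
    (hF : ∀ A ∈ F, ∀ B ∈ F, A ≠ B → ¬ p ∣ (symmDiff A B).card) :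
    F.card * 3 ^ (Fintype.card V - (p - 1)) ≤ 4 ^ Fintype.card V := by
  classical
  have hV0 : ((Fintype.card V : ℕ) : ZMod p) = 0 := (ZMod.natCast_eq_zero_iff _ _).2 hV
  have h2 : (2 : ZMod p) ≠ 0 := by
    intro h
    have : ((2 : ℕ) : ZMod p) = 0 := by exact_mod_cast h
    have := (ZMod.natCast_eq_zero_iff _ _).1 this
    exact hp2 ((Nat.prime_dvd_prime_iff_eq hp.out Nat.prime_two).1 this)
  have hp1 : p - 1 ≠ 0 := by have := hp.out.two_le; omega
  let f : F → (Finset V → ZMod p) := fun A B => 1 - (ip (ZMod p) A.1 B) ^ (p - 1)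
  have hf : ∀ A B : F, f A B.1 = if A = B then 1 else 0 := by
    intro A B
    simp only [f, ip_eq, hV0]
    split_ifs with h
    · subst h; simp [hp1]
    · have hne : A.1 ≠ B.1 := fun h' => h (Subtype.ext h')
      have h3 := hF A.1 A.2 B.1 B.2 hne
      have h4 : (((symmDiff A.1 B.1).card : ℕ) : ZMod p) ≠ 0 :=
        fun h' => h3 ((ZMod.natCast_eq_zero_iff _ _).1 h')
      have h5 : (0 : ZMod p) - 2 * (((symmDiff A.1 B.1).card : ℕ) : ZMod p) ≠ 0 := by
        simp [h2, h4]
      rw [ZMod.pow_card_sub_one_eq_one h5]; simp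
  have hli : LinearIndependent (ZMod p) f := by
    rw [Fintype.linearIndependent_iff]
    intro g hg B
    have := congrFun hg B.1
    simp only [Finset.sum_apply, Pi.smul_apply, hf, smul_eq_mul, Pi.zero_apply] at this
    simpa using this
  have hspan : Set.range f ≤ W (ZMod p) V (p - 1) := by
    rintro _ ⟨A, rfl⟩
    have e : f A = mono (ZMod p) (∅ : Finset V) - fun B => (ip (ZMod p) A.1 B) ^ (p - 1) := by
      funext B; simp [f, mono]
    rw [e]
    exact Submodule.sub_mem _ (mono_mem _ _ _ (by simp)) (pow_mem _ _ _)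
  have h6 := linearIndependent_le_span_aux' f hli _ hspan
  have h7 := Fintype.card_range_le
    (fun S : {S : Finset V // S.card ≤ p - 1} => mono (ZMod p) S.1)
  have h8 : F.card ≤ Fintype.card {S : Finset V // S.card ≤ p - 1} := by
    rw [Fintype.card_coe] at h6
    exact h6.trans h7
  exact (Nat.mul_le_mul_right _ h8).trans (card_small (p - 1))

end Pool.Agent.H.MP_5ac6d8_co
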